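import Mathlib
import Pool.Agent.Helper94.Tarski.Indic

set_option autoImplicit false

namespace Pool.Agent.Results.MP_4f3965_al.UndistortedUnderLaw

/-- Every nontrivial finitely generated left-orderable group that satisfies a nontrivial law
contains an undistorted element. -/
theorem result :
    ∀ (G : Type) [Group G], Nontrivial G →
      (∃ P : Set G, (∀ a ∈ P, ∀ b ∈ P, a * b ∈ P) ∧ (1 : G) ∉ P ∧
        ∀ g : G, g ≠ 1 → (g ∈ P ↔ g⁻¹ ∉ P)) →
      (∃ (r : ℕ) (w : FreeGroup (Fin r)), w ≠ 1 ∧ ∀ f : Fin r → G, FreeGroup.lift f w = 1) →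
      ∀ S : Finset G, Subgroup.closure (S : Set G) = ⊤ →
        ∃ g : G, g ≠ 1 ∧ ∃ k : ℕ, 0 < k ∧ ∀ n : ℕ, ∀ l : List G,
          (∀ x ∈ l, x ∈ S ∨ x⁻¹ ∈ S) → l.prod = g ^ n → n ≤ k * l.length := by
  classical
  rintro G _ _ ⟨P, hP1, hP2, hP3⟩ ⟨r, w, hw, hlaw⟩ S hS
  obtain ⟨φ, hφ⟩ := Pool.Agent.Helper94.Tarski.surj_of_law
    (Group.fg_def.2 ⟨S, hS⟩) (fun a b => b * a⁻¹ ∈ P)
    (by intro a h; rw [mul_inv_cancel] at h; exact hP2 h)
    (by
      intro a b c h1 h2
      have := hP1 _ h2 _ h1
      have e : c * b⁻¹ * (b * a⁻¹) = c * a⁻¹ := by group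
      rwa [e] at this)
    (by
      intro a b
      by_cases hab : b * a⁻¹ = 1
      · right; left
        exact (mul_inv_eq_one.1 hab).symm
      · by_cases h : b * a⁻¹ ∈ P
        · exact Or.inl h
        · right; right
          by_contra h2
          apply h
          rw [hP3 _ hab]
          have e : (b * a⁻¹)⁻¹ = a * b⁻¹ := by group
          rw [e]
          exact h2)
    (by
      intro a b c h
      have e : b * c * (a * c)⁻¹ = b * a⁻¹ := by group
      rw [e]; exact h)
    r w hw hlaw
  obtain ⟨g, hg⟩ := hφ (Multiplicative.ofAdd 1)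
  refine ⟨g, ?_, (S.sup fun s => (Multiplicative.toAdd (φ s)).natAbs) + 1, Nat.succ_pos _, ?_⟩
  · rintro rfl
    rw [map_one] at hg
    exact absurd (congrArg Multiplicative.toAdd hg) (by simp)
  · intro n l hl hprod
    have key : ∀ l : List G, (∀ x ∈ l, x ∈ S ∨ x⁻¹ ∈ S) →
        (Multiplicative.toAdd (φ l.prod)).natAbs ≤
          ((S.sup fun s => (Multiplicative.toAdd (φ s)).natAbs) + 1) * l.length := by
      intro l
      induction l with
      | nil => intro _; simp
      | cons x l ih =>
        intro hx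
        have h1 := ih (fun y hy => hx y (List.mem_cons_of_mem _ hy))
        have h2 : (Multiplicative.toAdd (φ x)).natAbs ≤
            (S.sup fun s => (Multiplicative.toAdd (φ s)).natAbs) := by
          rcases hx x List.mem_cons_self with h | h
          · exact Finset.le_sup (f := fun s => (Multiplicative.toAdd (φ s)).natAbs) h
          · have := Finset.le_sup (f := fun s => (Multiplicative.toAdd (φ s)).natAbs) h
            simpa using this
        rw [List.prod_cons, map_mul, toAdd_mul, List.length_cons]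
        have h3 := Int.natAbs_add_le (Multiplicative.toAdd (φ x)) (Multiplicative.toAdd (φ l.prod))
        nlinarith
    have h1 := key l hl
    rw [hprod, map_pow, hg] at h1
    simpa using h1

end Pool.Agent.Results.MP_4f3965_al.UndistortedUnderLaw
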